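import Pool.Agent.KS6_11.SpanW.Det

set_option autoImplicit false

/-!
Span sets of Brownian motion over all time windows simultaneously (probabilistic part).
-/

open MeasureTheory ProbabilityTheory Filter Topology Set
open scoped ENNReal NNReal

namespace Pool.Agent.KS6_11.SpanW

open Pool.Agent.R974.Span Pool.Agent.R977.SpanReg

/-- separation of maxima from later minima on rational intervals -/
def Sep (f : ℝ≥0 → ℝ) : Prop :=
  ∀ q1 q2 q3 q4 : ℚ, (q1 : ℝ).toNNReal ≤ (q2 : ℝ).toNNReal → (q2 : ℝ).toNNReal < (q3 : ℝ).toNNReal →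
    (q3 : ℝ).toNNReal ≤ (q4 : ℝ).toNNReal →
    mx f (q1 : ℝ).toNNReal (q2 : ℝ).toNNReal ≠ -mx (fun t => -f t) (q3 : ℝ).toNNReal (q4 : ℝ).toNNReal

/-- rational interval around a point on which a local bound holds -/
lemma rat_nbhd {s : ℝ≥0} {U : Set ℝ≥0} (hU : U ∈ 𝓝 s) {δ : ℝ} (hδ : 0 < δ) :
    ∃ q1 q2 : ℚ, (q1 : ℝ).toNNReal ≤ s ∧ s ≤ (q2 : ℝ).toNNReal ∧ (s : ℝ) - δ < q1 ∧
      (((q2 : ℝ).toNNReal : ℝ≥0) : ℝ) < s + δ ∧
      ∀ x, (q1 : ℝ).toNNReal ≤ x → x ≤ (q2 : ℝ).toNNReal → x ∈ U := by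
  obtain ⟨ε, hε, hball⟩ := Metric.mem_nhds_iff.1 hU
  have hs0 : (0:ℝ) ≤ s := s.2
  set r : ℝ := min ε δ with hr
  have hr0 : 0 < r := lt_min hε hδ
  have hr1 : r ≤ ε := min_le_left _ _
  have hr2 : r ≤ δ := min_le_right _ _
  obtain ⟨q1, h1a, h1b⟩ := exists_rat_btwn (show (s:ℝ) - r < s by linarith)
  obtain ⟨q2, h2a, h2b⟩ := exists_rat_btwn (show (s:ℝ) < s + r by linarith)
  have e2 : (((q2 : ℝ).toNNReal : ℝ≥0) : ℝ) = q2 := Real.coe_toNNReal _ (by linarith)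
  refine ⟨q1, q2, ?_, ?_, by linarith, by rw [e2]; linarith, fun x hx1 hx2 => hball ?_⟩
  · rw [Real.toNNReal_le_iff_le_coe]; exact h1b.le
  · rw [← NNReal.coe_le_coe, e2]; exact h2a.le
  · have g1 : (q1 : ℝ) ≤ x := (Real.le_coe_toNNReal _).trans (by exact_mod_cast hx1)
    have g2 : (x : ℝ) ≤ q2 := by rw [← e2]; exact_mod_cast hx2
    rw [Metric.mem_ball, NNReal.dist_eq, abs_lt]
    constructor <;> linarith

lemma mx_of_max {f : ℝ≥0 → ℝ} (hf : Continuous f) {a b s : ℝ≥0} (h1 : a ≤ s) (h2 : s ≤ b)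
    (h : ∀ x, a ≤ x → x ≤ b → f x ≤ f s) : mx f a b = f s :=
  le_antisymm (mx_le (h1.trans h2) h) (le_mx hf h1 h2)

lemma ext_of_sep {f : ℝ≥0 → ℝ} (hf : Continuous f) (hs : Sep f) : Ext f := by
  intro s t hst hmax hmin heq
  have hst' : (s : ℝ) < t := by exact_mod_cast hst
  obtain ⟨q1, q2, h1, h2, -, h3, h4⟩ := rat_nbhd hmax (δ := ((t : ℝ) - s) / 2) (by linarith)
  obtain ⟨q3, q4, h5, h6, h7, -, h8⟩ := rat_nbhd hmin (δ := ((t : ℝ) - s) / 2) (by linarith)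
  have h9 : (q2 : ℝ).toNNReal < (q3 : ℝ).toNNReal := by
    rw [← NNReal.coe_lt_coe]
    have := Real.le_coe_toNNReal (q3 : ℝ)
    linarith
  apply hs q1 q2 q3 q4 (h1.trans h2) h9 (h5.trans h6)
  rw [mx_of_max hf h1 h2 h4, mx_of_max (f := fun t => -f t) hf.neg h5 h6
    (fun x hx1 hx2 => neg_le_neg (h8 x hx1 hx2)), neg_neg, heq]

section
variable {Ω : Type*} [MeasurableSpace Ω] {P : Measure Ω} {B : ℝ≥0 → Ω → ℝ}

lemma ae_sep (hB : GBM B P) : ∀ᵐ ω ∂P, Sep (fun t => B t ω) := by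
  unfold Sep
  simp only [ae_all_iff, eventually_imp_distrib_left]
  intro q1 q2 q3 q4 h1 h2 h3
  rw [ae_iff]
  simpa using mx_ne_mn hB h1 h2 h3

lemma ae_ext (hB : GBM B P) : ∀ᵐ ω ∂P, Ext (fun t => B t ω) := by
  filter_upwards [ae_sep hB] with ω h using ext_of_sep (hB.cont ω) h

lemma ae_nw (hB : GBM B P) : ∀ᵐ ω ∂P, NW (fun t => B t ω) := by
  have h1 : ∀ᵐ ω ∂P, ∀ q : ℚ, NonMon (fun t => B ((q : ℝ).toNNReal + t) ω - B (q : ℝ).toNNReal ω) :=
    ae_all_iff.2 fun q => ae_nonmon (hB.shift _)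
  filter_upwards [h1] with ω h p q hpq
  have hpq' : (p : ℝ) < q := by exact_mod_cast hpq
  have hp0 : (0 : ℝ) ≤ p := p.2
  obtain ⟨r, hr1, hr2⟩ := exists_rat_btwn hpq'
  have er : (((r : ℝ).toNNReal : ℝ≥0) : ℝ) = r := Real.coe_toNNReal _ (by linarith)
  have hpr : p ≤ (r : ℝ).toNNReal := by rw [← NNReal.coe_le_coe, er]; exact hr1.le
  have hrq : (r : ℝ).toNNReal < q := by rw [← NNReal.coe_lt_coe, er]; exact hr2
  obtain ⟨-, x, y, hxy, hy, hlt⟩ := h r (q - (r : ℝ).toNNReal) (tsub_pos_of_lt hrq)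
  refine ⟨(r : ℝ).toNNReal + x, (r : ℝ).toNNReal + y, hpr.trans le_self_add, by gcongr, ?_, ?_⟩
  · calc (r : ℝ).toNNReal + y ≤ (r : ℝ).toNNReal + (q - (r : ℝ).toNNReal) := by gcongr
      _ = q := add_tsub_cancel_of_le hrq.le
  · simp only at hlt
    linarith

lemma ae_ends (hB : GBM B P) {a b : ℝ≥0} (hab : a < b) :
    ∀ᵐ ω ∂P, ∀ t, a < t → t < b → IsLocalMax (fun t => B t ω) t → B t ω ≠ B a ω ∧
      B t ω ≠ B b ω := by
  have h1 : ∀ᵐ ω ∂P, ∀ q1 q2 : ℚ, a < (q1 : ℝ).toNNReal → (q1 : ℝ).toNNReal ≤ (q2 : ℝ).toNNReal →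
      mx (fun t => (-B) t ω) a a
        ≠ -mx (fun t => -(-B) t ω) (q1 : ℝ).toNNReal (q2 : ℝ).toNNReal := by
    simp only [ae_all_iff, eventually_imp_distrib_left]
    intro q1 q2 h1 h2
    rw [ae_iff]
    simp only [ne_eq, not_not]
    exact mx_ne_mn hB.neg le_rfl h1 h2
  have h2 : ∀ᵐ ω ∂P, ∀ q1 q2 : ℚ, (q1 : ℝ).toNNReal ≤ (q2 : ℝ).toNNReal → (q2 : ℝ).toNNReal < b →
      mx (fun t => B t ω) (q1 : ℝ).toNNReal (q2 : ℝ).toNNReal
        ≠ -mx (fun t => -B t ω) b b := by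
    simp only [ae_all_iff, eventually_imp_distrib_left]
    intro q1 q2 h1 h2
    rw [ae_iff]
    simp only [ne_eq, not_not]
    exact mx_ne_mn hB h1 h2 le_rfl
  filter_upwards [h1, h2] with ω g1 g2 t hat htb hmax
  have hat' : (a : ℝ) < t := by exact_mod_cast hat
  have htb' : (t : ℝ) < b := by exact_mod_cast htb
  have ha0 : (0 : ℝ) ≤ a := a.2
  obtain ⟨q1, q2, h1, h2, h5, h3, h4⟩ := rat_nbhd hmax (δ := min ((t : ℝ) - a) ((b : ℝ) - t))
    (lt_min (by linarith) (by linarith))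
  have m1 := min_le_left ((t : ℝ) - a) ((b : ℝ) - t)
  have m2 := min_le_right ((t : ℝ) - a) ((b : ℝ) - t)
  have k1 : a < (q1 : ℝ).toNNReal := by
    rw [← NNReal.coe_lt_coe]
    have := Real.le_coe_toNNReal (q1 : ℝ)
    linarith
  have k2 : (q2 : ℝ).toNNReal < b := by
    rw [← NNReal.coe_lt_coe]
    linarith
  have hm := mx_of_max (hB.cont ω) h1 h2 h4
  constructor
  · intro heq
    apply g1 q1 q2 k1 (h1.trans h2)
    have e : (fun t => -(-B) t ω) = fun t => B t ω := by funext t; simp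
    rw [e, hm, mx_of_max (hB.neg.cont ω) le_rfl le_rfl (fun x hx1 hx2 => by
      rw [le_antisymm hx2 hx1]), heq]
    rfl
  · intro heq
    apply g2 q1 q2 (h1.trans h2) k2
    rw [hm, mx_of_max (f := fun t => -B t ω) (hB.cont ω).neg le_rfl le_rfl (fun x hx1 hx2 => by
      rw [le_antisymm hx2 hx1]), neg_neg, heq]

lemma ae_generic (hB : GBM B P) {a b : ℝ≥0} (hab : a < b) :
    ∀ᵐ ω ∂P, Generic (fun t => B t ω) a b := by
  have h0 : ∀ᵐ ω ∂P, B (a + (b - a)) ω - B a ω ≠ 0 := by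
    rw [ae_iff]
    simp only [ne_eq, not_not]
    exact eval_noatom (hB.shift a) (tsub_pos_of_lt hab) 0
  filter_upwards [h0, ae_ends hB hab, ae_ends hB.neg hab] with ω h1 h2 h3
  rw [add_tsub_cancel_of_le hab.le] at h1
  refine ⟨fun h => h1 (by simp only at h; rw [h, sub_self]), fun t hat htb hext => ?_⟩
  rcases hext with hmin | hmax
  · have := h3 t hat htb hmin.neg
    simpa using this
  · exact h2 t hat htb hmax

/-- almost surely, all generic windows are regular -/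
theorem ae_all_windows (hB : GBM B P) : ∀ᵐ ω ∂P, ∀ a b : ℝ≥0, a < b →
    Generic (fun t => B t ω) a b →
    SpW (fun t => B t ω) a b = closure (interior (SpW (fun t => B t ω) a b)) := by
  filter_upwards [ae_ext hB, ae_ext hB.neg, ae_nw hB, ae_nw hB.neg] with ω h1 h2 h3 h4 a b hab hg
  exact regular_window (hB.cont ω) h1 h2 h3 h4 hab hg

/-- almost surely, every interval of times contains an exceptional window -/
theorem ae_exceptional (hB : GBM B P) : ∀ᵐ ω ∂P, ∀ p q : ℝ≥0, p < q →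
    ∃ a b : ℝ≥0, p ≤ a ∧ a < b ∧ b ≤ q ∧
      SpW (fun t => B t ω) a b ≠ closure (interior (SpW (fun t => B t ω) a b)) := by
  filter_upwards [ae_nw hB, ae_nw hB.neg] with ω h3 h4 p q hpq
  exact exceptional_window (hB.cont ω) h3 h4 hpq

end

end Pool.Agent.KS6_11.SpanW
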