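import Pool.Graph.R_seed8.R977.SpanReg

set_option autoImplicit false

/-!
Span sets of a continuous path over a time window: regularity and exceptional windows
(deterministic part).
-/

open Filter Topology Set
open scoped NNReal

namespace Pool.Agent.KS6_11.SpanW

open Pool.Agent.R974.Span Pool.Agent.R977.SpanReg

/-- The span set of `f` over the window `[a, b]`. -/
def SpW (f : ℝ≥0 → ℝ) (a b : ℝ≥0) : Set ℝ :=
  {u | ∃ s t : ℝ≥0, a ≤ s ∧ s ≤ t ∧ t ≤ b ∧ f s = f t ∧ u = (t : ℝ) - s}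

/-- two local extrema of different kind at different times have different values -/
def Ext (f : ℝ≥0 → ℝ) : Prop :=
  ∀ s t : ℝ≥0, s < t → IsLocalMax f s → IsLocalMin f t → f s ≠ f t

/-- `f` is not monotone on any interval -/
def NW (f : ℝ≥0 → ℝ) : Prop :=
  ∀ p q : ℝ≥0, p < q → ∃ x y, p ≤ x ∧ x < y ∧ y ≤ q ∧ f y < f x

/-- the window `[a, b]` is generic: `f a ≠ f b`, and neither of the values `f a`, `f b` is the
value of a local extremum inside the window -/
def Generic (f : ℝ≥0 → ℝ) (a b : ℝ≥0) : Prop :=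
  f a ≠ f b ∧ ∀ t, a < t → t < b → IsLocalExtr f t → f t ≠ f a ∧ f t ≠ f b

lemma SpW_neg (f : ℝ≥0 → ℝ) (a b : ℝ≥0) : SpW (fun t => -f t) a b = SpW f a b := by
  unfold SpW
  simp only [neg_inj]

/-- the path rescaled to the unit window -/
noncomputable def resc (f : ℝ≥0 → ℝ) (a b : ℝ≥0) (x : ℝ≥0) : ℝ := f (a + (b - a) * x)

section
variable {f : ℝ≥0 → ℝ} {a b : ℝ≥0}

lemma resc_continuous (hf : Continuous f) : Continuous (resc f a b) := by
  unfold resc; fun_prop

lemma SpW_eq (hab : a < b) : SpW f a b = (fun u => ((b : ℝ) - a) * u) '' Sp (resc f a b) := by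
  have hd : 0 < b - a := tsub_pos_of_lt hab
  have hdr : ((b - a : ℝ≥0) : ℝ) = (b : ℝ) - a := NNReal.coe_sub hab.le
  have hd0 : (b - a) ≠ 0 := hd.ne'
  ext u
  constructor
  · rintro ⟨s, t, has, hst, htb, h, rfl⟩
    have es : a + (b - a) * ((s - a) / (b - a)) = s := by
      rw [mul_div_cancel₀ _ hd0, add_tsub_cancel_of_le has]
    have et : a + (b - a) * ((t - a) / (b - a)) = t := by
      rw [mul_div_cancel₀ _ hd0, add_tsub_cancel_of_le (has.trans hst)]
    refine ⟨(((t - a) / (b - a) : ℝ≥0) : ℝ) - (((s - a) / (b - a) : ℝ≥0) : ℝ),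
      ⟨(s - a) / (b - a), (t - a) / (b - a), ?_, ?_, ?_, rfl⟩, ?_⟩
    · gcongr
    · rw [div_le_one hd]
      exact tsub_le_tsub_right htb a
    · unfold resc
      rw [es, et]
      exact h
    · have hdr0 : (b : ℝ) - a ≠ 0 := by rw [← hdr]; exact_mod_cast hd0
      simp only [NNReal.coe_div, hdr, NNReal.coe_sub has, NNReal.coe_sub (has.trans hst)]
      field_simp
      ring
  · rintro ⟨v, ⟨s, t, hst, ht1, h, rfl⟩, rfl⟩
    refine ⟨a + (b - a) * s, a + (b - a) * t, le_self_add, by gcongr, ?_, h, ?_⟩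
    · calc a + (b - a) * t ≤ a + (b - a) * 1 := by gcongr
        _ = b := by rw [mul_one, add_tsub_cancel_of_le hab.le]
    · simp only [NNReal.coe_add, NNReal.coe_mul, hdr]
      ring

lemma regular_of_resc (hab : a < b)
    (h : Sp (resc f a b) = closure (interior (Sp (resc f a b)))) :
    SpW f a b = closure (interior (SpW f a b)) := by
  have hdr : (0 : ℝ) < (b : ℝ) - a := sub_pos.2 (by exact_mod_cast hab)
  let e : ℝ ≃ₜ ℝ := Homeomorph.mulLeft₀ ((b : ℝ) - a) hdr.ne'
  have he : (fun u => ((b : ℝ) - a) * u) = e := rfl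
  rw [SpW_eq hab, he, ← e.image_interior, ← e.image_closure, ← h]

lemma localMax_of_resc (hab : a < b) {s : ℝ≥0} (hs : 0 < s) (hs1 : s < 1)
    {ε : ℝ} (hε : 0 < ε)
    (h : ∀ s' : ℝ≥0, s' ≤ 1 → |(s' : ℝ) - s| < ε → resc f a b s' ≤ resc f a b s) :
    IsLocalMax f (a + (b - a) * s) := by
  have hd : 0 < b - a := tsub_pos_of_lt hab
  have hd0 : (b - a) ≠ 0 := hd.ne'
  have hc : Continuous fun x : ℝ≥0 => (x - a) / (b - a) := by fun_prop
  have h0 : (a + (b - a) * s - a) / (b - a) = s := by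
    rw [add_tsub_cancel_left, mul_div_cancel_left₀ _ hd0]
  have h1 : ∀ᶠ x in 𝓝 (a + (b - a) * s), |(((x - a) / (b - a) : ℝ≥0) : ℝ) - s| < ε := by
    have hc' : Continuous fun x : ℝ≥0 => |(((x - a) / (b - a) : ℝ≥0) : ℝ) - s| := by fun_prop
    apply hc'.continuousAt.eventually_lt_const
    simp only [h0]
    simpa using hε
  have h2 : ∀ᶠ x in 𝓝 (a + (b - a) * s), (x - a) / (b - a) < 1 := by
    apply hc.continuousAt.eventually_lt_const
    simp only [h0]
    exact hs1
  have h3 : ∀ᶠ x in 𝓝 (a + (b - a) * s), a < x := by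
    apply lt_mem_nhds
    exact lt_add_of_pos_right a (mul_pos hd hs)
  filter_upwards [h1, h2, h3] with x hx1 hx2 hx3
  have := h _ hx2.le hx1
  unfold resc at this
  rwa [mul_div_cancel₀ _ hd0, add_tsub_cancel_of_le hx3.le] at this

lemma ndg_half (hab : a < b) (he : Ext f) (hg : Generic f a b) {s t : ℝ≥0}
    (hst : s < t) (ht : t ≤ 1) (heq : resc f a b s = resc f a b t) {ε : ℝ} (hε : 0 < ε) :
    ∃ s' t' : ℝ≥0, s' ≤ 1 ∧ t' ≤ 1 ∧ |(s' : ℝ) - s| < ε ∧ |(t' : ℝ) - t| < ε ∧
      resc f a b t' < resc f a b s' := by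
  by_contra hcon
  push Not at hcon
  have hd : 0 < b - a := tsub_pos_of_lt hab
  have hs1 : s < 1 := hst.trans_le ht
  have ht0 : 0 < t := zero_le.trans_lt hst
  have hself : ∀ x : ℝ≥0, |(x : ℝ) - x| < ε := fun x => by simpa using hε
  have hs' : ∀ s' : ℝ≥0, s' ≤ 1 → |(s' : ℝ) - s| < ε → resc f a b s' ≤ resc f a b s := by
    intro s' h1 h2
    rw [heq]
    exact hcon s' t h1 ht h2 (hself t)
  have ht' : ∀ t' : ℝ≥0, t' ≤ 1 → |(t' : ℝ) - t| < ε →
      resc (fun x => -f x) a b t' ≤ resc (fun x => -f x) a b t := by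
    intro t' h1 h2
    have := hcon s t' hs1.le h1 (hself s) h2
    have e : ∀ x, resc (fun x => -f x) a b x = -resc f a b x := fun x => rfl
    rw [e, e, neg_le_neg_iff, ← heq]
    exact this
  have hin : ∀ x : ℝ≥0, 0 < x → x < 1 → a < a + (b - a) * x ∧ a + (b - a) * x < b := by
    intro x hx0 hx1
    refine ⟨lt_add_of_pos_right a (mul_pos hd hx0), ?_⟩
    calc a + (b - a) * x < a + (b - a) * 1 := by gcongr
      _ = b := by rw [mul_one, add_tsub_cancel_of_le hab.le]
  have h0 : resc f a b 0 = f a := by unfold resc; rw [mul_zero, add_zero]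
  have h1 : resc f a b 1 = f b := by
    unfold resc; rw [mul_one, add_tsub_cancel_of_le hab.le]
  rcases (zero_le (a := s)).eq_or_lt with hs0 | hs0
  · rcases ht.eq_or_lt with ht1 | ht1
    · apply hg.1
      rw [← h0, ← h1, hs0, heq, ht1]
    · have hm := localMax_of_resc (f := fun x => -f x) hab ht0 ht1 hε ht'
      have hm' : IsLocalMin f (a + (b - a) * t) := by simpa using hm.neg
      have h2 := (hg.2 _ (hin t ht0 ht1).1 (hin t ht0 ht1).2 (Or.inl hm')).1
      apply h2
      rw [← h0, hs0, heq]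
      rfl
  · have hm := localMax_of_resc hab hs0 hs1 hε hs'
    rcases ht.eq_or_lt with ht1 | ht1
    · have h2 := (hg.2 _ (hin s hs0 hs1).1 (hin s hs0 hs1).2 (Or.inr hm)).2
      apply h2
      rw [← h1, ← ht1, ← heq]
      rfl
    · have hn := localMax_of_resc (f := fun x => -f x) hab ht0 ht1 hε ht'
      have hn' : IsLocalMin f (a + (b - a) * t) := by simpa using hn.neg
      exact he _ _ (by gcongr) hm hn' heq

lemma Generic.neg (hg : Generic f a b) : Generic (fun t => -f t) a b := by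
  refine ⟨fun h => hg.1 (neg_injective h), fun t h1 h2 h3 => ?_⟩
  have h4 : IsLocalExtr f t := by
    rcases h3 with h3 | h3
    · right
      simpa using h3.neg
    · left
      simpa using h3.neg
  have := hg.2 t h1 h2 h4
  exact ⟨fun h => this.1 (neg_injective h), fun h => this.2 (neg_injective h)⟩

lemma nonmon_half (hab : a < b) (hn : NW f) {q : ℝ≥0} (hq : 0 < q) :
    ∃ x y, x < y ∧ y ≤ q ∧ resc f a b y < resc f a b x := by
  have hd : 0 < b - a := tsub_pos_of_lt hab
  have hd0 : (b - a) ≠ 0 := hd.ne'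
  obtain ⟨x, y, h1, h2, h3, h4⟩ := hn a (a + (b - a) * q) (lt_add_of_pos_right a (mul_pos hd hq))
  refine ⟨(x - a) / (b - a), (y - a) / (b - a), ?_, ?_, ?_⟩
  · apply div_lt_div_of_pos_right _ hd
    exact tsub_lt_tsub_right_of_le h1 h2
  · rw [div_le_iff₀ hd, tsub_le_iff_left, mul_comm q]
    exact h3
  · unfold resc
    rwa [mul_div_cancel₀ _ hd0, mul_div_cancel₀ _ hd0, add_tsub_cancel_of_le (h1.trans h2.le),
      add_tsub_cancel_of_le h1]

/-- the span set over a generic window is the closure of its interior -/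
theorem regular_window (hf : Continuous f) (he : Ext f) (he' : Ext fun t => -f t) (hn : NW f)
    (hn' : NW fun t => -f t) (hab : a < b) (hg : Generic f a b) :
    SpW f a b = closure (interior (SpW f a b)) := by
  apply regular_of_resc hab
  apply regular (resc_continuous hf)
  · intro s t hst ht heq ε hε
    refine ⟨?_, ndg_half hab he hg hst ht heq hε⟩
    obtain ⟨s', t', h1, h2, h3, h4, h5⟩ := ndg_half (f := fun x => -f x) hab he' hg.neg hst ht
      (show resc (fun x => -f x) a b s = resc (fun x => -f x) a b t by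
        show -resc f a b s = -resc f a b t
        rw [heq]) hε
    exact ⟨s', t', h1, h2, h3, h4, neg_lt_neg_iff.1 h5⟩
  · intro q hq
    refine ⟨?_, nonmon_half hab hn hq⟩
    obtain ⟨x, y, h1, h2, h3⟩ := nonmon_half hab hn' hq
    exact ⟨x, y, h1, h2, neg_lt_neg_iff.1 h3⟩
  · have h0 : resc f a b 0 = f a := by unfold resc; rw [mul_zero, add_zero]
    have h1 : resc f a b 1 = f b := by
      unfold resc; rw [mul_one, add_tsub_cancel_of_le hab.le]
    rw [h0, h1]
    exact hg.1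

end

/-! ### Exceptional windows -/

section
variable {f : ℝ≥0 → ℝ}

/-- the last time in `[p, q]` at which the level `ℓ` is taken -/
lemma last_time (hf : Continuous f) {p q : ℝ≥0} {l : ℝ} (hpq : p ≤ q) (hp : f p ≤ l)
    (hq : l < f q) : ∃ a, p ≤ a ∧ a < q ∧ f a = l ∧ ∀ z, a < z → z ≤ q → l < f z := by
  have hne : (Icc p q ∩ {z | f z = l}).Nonempty := by
    obtain ⟨z, hz, hz'⟩ := intermediate_value_Icc hpq hf.continuousOn ⟨hp, hq.le⟩
    exact ⟨z, hz, hz'⟩
  have hc : IsCompact (Icc p q ∩ {z | f z = l}) :=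
    isCompact_Icc.inter_right (isClosed_eq hf continuous_const)
  obtain ⟨a, ha, hmax⟩ := hc.exists_isGreatest hne
  have haq : a < q := by
    refine lt_of_le_of_ne ha.1.2 ?_
    rintro rfl
    exact hq.ne' ha.2
  refine ⟨a, ha.1.1, haq, ha.2, fun z hz hzq => ?_⟩
  by_contra h
  push Not at h
  obtain ⟨w, hw, hw'⟩ := intermediate_value_Icc hzq hf.continuousOn ⟨h, hq.le⟩
  have : w ≤ a := hmax ⟨⟨ha.1.1.trans (hz.le.trans hw.1), hw.2⟩, hw'⟩
  exact absurd (hz.trans_le hw.1) this.not_gt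

/-- the first time in `[p, q]` at which the level `ℓ` is taken -/
lemma first_time (hf : Continuous f) {p q : ℝ≥0} {l : ℝ} (hpq : p ≤ q) (hp : f p < l)
    (hq : l ≤ f q) : ∃ a, p < a ∧ a ≤ q ∧ f a = l ∧ ∀ z, p ≤ z → z < a → f z < l := by
  have hne : (Icc p q ∩ {z | f z = l}).Nonempty := by
    obtain ⟨z, hz, hz'⟩ := intermediate_value_Icc hpq hf.continuousOn ⟨hp.le, hq⟩
    exact ⟨z, hz, hz'⟩
  have hc : IsCompact (Icc p q ∩ {z | f z = l}) :=
    isCompact_Icc.inter_right (isClosed_eq hf continuous_const)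
  obtain ⟨a, ha, hmin⟩ := hc.exists_isLeast hne
  have haq : p < a := by
    refine lt_of_le_of_ne ha.1.1 ?_
    rintro rfl
    exact hp.ne ha.2
  refine ⟨a, haq, ha.1.2, ha.2, fun z hz hza => ?_⟩
  by_contra h
  push Not at h
  obtain ⟨w, hw, hw'⟩ := intermediate_value_Icc hz hf.continuousOn ⟨hp.le, h⟩
  have : a ≤ w := hmin ⟨⟨hw.1, hw.2.trans (hza.le.trans ha.1.2)⟩, hw'⟩
  exact absurd (hw.2.trans_lt hza) this.not_gt

lemma exceptional_of_pattern (hf : Continuous f) {t1 t2 t3 t4 : ℝ≥0} {l : ℝ} (h12 : t1 ≤ t2)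
    (h23 : t2 ≤ t3) (h34 : t3 ≤ t4) (h1 : f t1 ≤ l) (h2 : l < f t2) (h3 : f t3 < l)
    (h4 : l ≤ f t4) :
    ∃ a b, t1 ≤ a ∧ a < b ∧ b ≤ t4 ∧ SpW f a b ≠ closure (interior (SpW f a b)) := by
  obtain ⟨a, ha1, ha2, ha3, ha4⟩ := last_time hf h12 h1 h2
  obtain ⟨b, hb1, hb2, hb3, hb4⟩ := first_time hf h34 h3 h4
  have hab : a < b := ha2.trans_le (h23.trans hb1.le)
  refine ⟨a, b, ha1, hab, hb2, fun heq => ?_⟩
  set u : ℝ := (b : ℝ) - a with hu
  have hmem : u ∈ SpW f a b := ⟨a, b, le_rfl, hab.le, le_rfl, by rw [ha3, hb3], rfl⟩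
  have e1 : (a : ℝ) < t2 := by exact_mod_cast ha2
  have e2 : (t3 : ℝ) < b := by exact_mod_cast hb1
  set η : ℝ := min ((t2 : ℝ) - a) ((b : ℝ) - t3) with hη
  have hη0 : 0 < η := lt_min (by linarith) (by linarith)
  have hη1 : η ≤ (t2 : ℝ) - a := min_le_left _ _
  have hη2 : η ≤ (b : ℝ) - t3 := min_le_right _ _
  have huniq : ∀ v ∈ SpW f a b, u - η < v → v = u := by
    rintro v ⟨s, t, has, hst, htb, hst', rfl⟩ hv
    have c1 : (a : ℝ) ≤ s := by exact_mod_cast has
    have c2 : (t : ℝ) ≤ b := by exact_mod_cast htb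
    have d1 : s ≤ t2 := by
      have : (s : ℝ) ≤ t2 := by linarith
      exact_mod_cast this
    have d2 : t3 ≤ t := by
      have : (t3 : ℝ) ≤ t := by linarith
      exact_mod_cast this
    rcases has.eq_or_lt with h | h
    · rcases htb.eq_or_lt with h' | h'
      · rw [← h, h']
      · have := hb4 t d2 h'
        rw [← hst', ← h, ha3] at this
        exact absurd this (lt_irrefl _)
    · have h5 := ha4 s h d1
      rcases htb.eq_or_lt with h' | h'
      · rw [hst', h', hb3] at h5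
        exact absurd h5 (lt_irrefl _)
      · have h6 := hb4 t d2 h'
        rw [← hst'] at h6
        exact absurd (h5.trans h6) (lt_irrefl _)
  rw [heq] at hmem
  rw [mem_closure_iff] at hmem
  obtain ⟨v, hv1, hv2⟩ := hmem (Ioi (u - η)) isOpen_Ioi (by simpa using hη0)
  have hvu := huniq v (interior_subset hv2) hv1
  subst hvu
  rw [mem_interior_iff_mem_nhds, Metric.mem_nhds_iff] at hv2
  obtain ⟨δ, hδ, hball⟩ := hv2
  have hm : 0 < min (δ / 2) (η / 2) := lt_min (by linarith) (by linarith)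
  have h5 := hball (show u - min (δ / 2) (η / 2) ∈ Metric.ball u δ by
    rw [Metric.mem_ball, Real.dist_eq, sub_sub_cancel_left, abs_neg, abs_of_pos hm]
    have := min_le_left (δ / 2) (η / 2)
    linarith)
  have h6 := huniq _ h5 (by have := min_le_right (δ / 2) (η / 2); linarith)
  linarith

lemma exceptional_of_lt (hf : Continuous f) (hn : NW f) {p q : ℝ≥0} (hpq : p < q)
    (h : f p < f q) :
    ∃ a b, p ≤ a ∧ a < b ∧ b ≤ q ∧ SpW f a b ≠ closure (interior (SpW f a b)) := by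
  obtain ⟨p', hp1, hp2, hp3, hp4⟩ := last_time hf hpq.le le_rfl h
  obtain ⟨q', hq1, hq2, hq3, hq4⟩ := first_time hf hp2.le (by rw [hp3]; exact h) le_rfl
  obtain ⟨p'', hp''⟩ := exists_between hq1
  obtain ⟨q'', hq''⟩ := exists_between hp''.2
  obtain ⟨x, y, hx, hxy, hy, hlt⟩ := hn p'' q'' hq''.1
  obtain ⟨l, hl1, hl2⟩ := exists_between hlt
  have hpx : p' < x := hp''.1.trans_le hx
  have hyq : y < q' := hy.trans_lt hq''.2
  have h1 : f p < f y := hp4 y (hpx.trans hxy) (hyq.le.trans hq2)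
  have h2 : f x < f q := hq4 x hpx.le (hxy.trans hyq)
  obtain ⟨a, b, ha, hab, hb, hne⟩ := exceptional_of_pattern hf hpx.le hxy.le hyq.le
    (by rw [hp3]; linarith) hl2 hl1 (by rw [hq3]; linarith)
  exact ⟨a, b, hp1.trans ha, hab, hb.trans hq2, hne⟩

/-- every interval of times contains an exceptional window -/
theorem exceptional_window (hf : Continuous f) (hn : NW f) (hn' : NW fun t => -f t) {p q : ℝ≥0}
    (hpq : p < q) :
    ∃ a b, p ≤ a ∧ a < b ∧ b ≤ q ∧ SpW f a b ≠ closure (interior (SpW f a b)) := by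
  obtain ⟨x, y, hx, hxy, hy, hlt⟩ := hn p q hpq
  have h1 : (fun t => -f t) x < (fun t => -f t) y := neg_lt_neg hlt
  obtain ⟨a, b, ha, hab, hb, hne⟩ := exceptional_of_lt hf.neg hn' hxy h1
  have e : SpW (-f) a b = SpW f a b := SpW_neg f a b
  rw [e] at hne
  exact ⟨a, b, hx.trans ha, hab, hb.trans hy, hne⟩

end

end Pool.Agent.KS6_11.SpanW
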